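import Pool.Agent.H16.NV.Stm

/-!
# Crew NV, part HUL: every hull of `n + 2` points with interior is an affine image of a `Kb d`
-/

set_option autoImplicit false

open MeasureTheory Set
open scoped ENNReal NNReal

namespace Pool.Agent.H55.NV

open Pool.Agent.H16.NV

/-- `n + 1` affinely independent points among the points `v` -/
theorem exists_subfamily {n : ℕ} (v : Fin (n + 2) → (Fin n → ℝ))
    (h : affineSpan ℝ (range v) = ⊤) :
    ∃ e : Fin (n + 1) → Fin (n + 2), Function.Injective e ∧ AffineIndependent ℝ (v ∘ e) := by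
  classical
  obtain ⟨t, hts, hspan, hind⟩ := exists_affineIndependent ℝ (Fin n → ℝ) (range v)
  have hfin : t.Finite := (Set.finite_range v).subset hts
  haveI : Fintype t := hfin.fintype
  have hcard : Fintype.card t = n + 1 := by
    have h1 := (hind.affineSpan_eq_top_iff_card_eq_finrank_add_one).1 (by
      rw [Subtype.range_coe_subtype]
      rw [← h, ← hspan]
      rfl)
    rw [h1]
    simp
  let E : Fin (n + 1) ≃ t := (Fintype.equivFinOfCardEq hcard).symm
  have hv : ∀ a : Fin (n + 1), ∃ j, v j = (E a : Fin n → ℝ) := fun a => hts (E a).2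
  choose e he using hv
  have hcomp : v ∘ e = (fun x : t => (x : Fin n → ℝ)) ∘ E := by
    funext a
    exact he a
  refine ⟨e, ?_, ?_⟩
  · intro a b hab
    have : (E a : Fin n → ℝ) = E b := by rw [← he a, ← he b, hab]
    exact E.injective (Subtype.ext this)
  · rw [hcomp]
    exact hind.comp_embedding E.toEmbedding

/-- the remaining index -/
theorem exists_rest {n : ℕ} (e : Fin (n + 1) → Fin (n + 2)) (he : Function.Injective e) :
    ∃ k : Fin (n + 2), ∀ j, j = k ∨ ∃ a, e a = j := by
  classical
  have hcard : ((Finset.univ.image e)ᶜ : Finset (Fin (n + 2))).card = 1 := by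
    rw [Finset.card_compl, Finset.card_image_of_injective _ he]
    simp
  obtain ⟨k, hk⟩ := Finset.card_eq_one.1 hcard
  refine ⟨k, fun j => ?_⟩
  by_cases hj : j ∈ Finset.univ.image e
  · right
    simpa using hj
  · left
    have : j ∈ ((Finset.univ.image e)ᶜ : Finset (Fin (n + 2))) := Finset.mem_compl.2 hj
    rw [hk] at this
    exact Finset.mem_singleton.1 this

/-- barycentric coordinates sum to one -/
theorem sum_bc {n : ℕ} (x : Fin n → ℝ) : ∑ a, bc x a = 1 := by
  unfold bc
  rw [Fin.sum_univ_succ]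
  simp

theorem bc_comb {n : ℕ} (x y : Fin n → ℝ) (α β : ℝ) (h : α + β = 1) (a : Fin (n + 1)) :
    bc (α • x + β • y) a = α * bc x a + β * bc y a := by
  unfold bc
  refine Fin.cases ?_ (fun i => ?_) a
  · simp only [Fin.cons_zero, Pi.add_apply, Pi.smul_apply, smul_eq_mul, Finset.sum_add_distrib,
      ← Finset.mul_sum]
    linear_combination (-1 : ℝ) * h
  · simp

/-- the affine equivalence sending `0, e_i` to the points `w` -/
theorem exists_equiv {n : ℕ} (w : Fin (n + 1) → (Fin n → ℝ)) (hw : AffineIndependent ℝ w) :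
    ∃ A : (Fin n → ℝ) ≃ᵃ[ℝ] (Fin n → ℝ), ∀ x, A x = ∑ a, bc x a • w a := by
  have h1 := (affineIndependent_iff_linearIndependent_vsub ℝ w 0).1 hw
  have h2 : LinearIndependent ℝ (fun i : Fin n => w i.succ - w 0) := by
    have := h1.comp (fun i : Fin n => (⟨i.succ, Fin.succ_ne_zero i⟩ : {x : Fin (n + 1) // x ≠ 0}))
      (fun i j hij => by
        have := congrArg Subtype.val hij
        exact Fin.succ_injective _ this)
    exact this
  let B : Module.Basis (Fin n) ℝ (Fin n → ℝ) :=
    basisOfLinearIndependentOfCardEqFinrank' _ h2 (by simp)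
  refine ⟨B.equivFun.symm.toAffineEquiv.trans (AffineEquiv.constVAdd ℝ (Fin n → ℝ) (w 0)), ?_⟩
  intro x
  have h3 : B.equivFun.symm x = ∑ i, x i • (w i.succ - w 0) := by
    rw [Module.Basis.equivFun_symm_apply]
    refine Finset.sum_congr rfl fun i _ => ?_
    simp [B]
  have h4 : (B.equivFun.symm.toAffineEquiv.trans (AffineEquiv.constVAdd ℝ (Fin n → ℝ) (w 0))) x =
      w 0 + B.equivFun.symm x := rfl
  rw [h4, h3, Fin.sum_univ_succ]
  unfold bc
  simp only [Fin.cons_zero, Fin.cons_succ, smul_sub, Finset.sum_sub_distrib, sub_smul, one_smul,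
    Finset.sum_smul]
  abel

theorem convex_Kb {n : ℕ} (d : Fin (n + 1) → ℝ) : Convex ℝ (Kb d) := by
  rintro x ⟨s, hs, hx⟩ y ⟨r, hr, hy⟩ α β hα hβ hαβ
  refine ⟨α * s + β * r, by positivity, fun a => ?_⟩
  rw [bc_comb x y α β hαβ a]
  nlinarith [mul_le_mul_of_nonneg_left (hx a) hα, mul_le_mul_of_nonneg_left (hy a) hβ]

theorem t_HUL : S_HUL := by
  classical
  intro n v hint
  have hspan : affineSpan ℝ (range v) = ⊤ := interior_convexHull_nonempty_iff_affineSpan_eq_top.1 hint
  obtain ⟨e, he, hind⟩ := exists_subfamily v hspan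
  obtain ⟨k, hk⟩ := exists_rest e he
  obtain ⟨A, hA⟩ := exists_equiv (v ∘ e) hind
  set c : Fin n → ℝ := A.symm (v k) with hc
  have hAc : A c = v k := by rw [hc, AffineEquiv.apply_symm_apply]
  refine ⟨bc c, A, sum_bc c, ?_⟩
  apply Set.Subset.antisymm
  · -- the hull is contained in the image
    apply convexHull_min
    · rintro _ ⟨j, rfl⟩
      rcases hk j with rfl | ⟨a, rfl⟩
      · refine ⟨c, ⟨1, zero_le_one, fun a => ?_⟩, hAc⟩
        rw [one_mul]
      · -- the point with coordinates `Pi.single a 1`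
        refine ⟨Fin.tail (Pi.single a (1 : ℝ) : Fin (n + 1) → ℝ), ⟨0, le_rfl, fun b => ?_⟩, ?_⟩
        · have hb : bc (Fin.tail (Pi.single a (1 : ℝ) : Fin (n + 1) → ℝ)) = Pi.single a 1 := by
            unfold bc
            have hsum : ∑ i, (Pi.single a (1 : ℝ) : Fin (n + 1) → ℝ) i = 1 := by simp
            rw [Fin.sum_univ_succ] at hsum
            have : 1 - ∑ i, Fin.tail (Pi.single a (1 : ℝ) : Fin (n + 1) → ℝ) i =
                (Pi.single a (1 : ℝ) : Fin (n + 1) → ℝ) 0 := by
              unfold Fin.tail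
              linarith
            rw [this]
            exact Fin.cons_self_tail _
          rw [hb, zero_mul]
          by_cases hab : b = a
          · subst hab; simp
          · simp [hab]
        · have hb : bc (Fin.tail (Pi.single a (1 : ℝ) : Fin (n + 1) → ℝ)) = Pi.single a 1 := by
            unfold bc
            have hsum : ∑ i, (Pi.single a (1 : ℝ) : Fin (n + 1) → ℝ) i = 1 := by simp
            rw [Fin.sum_univ_succ] at hsum
            have : 1 - ∑ i, Fin.tail (Pi.single a (1 : ℝ) : Fin (n + 1) → ℝ) i =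
                (Pi.single a (1 : ℝ) : Fin (n + 1) → ℝ) 0 := by
              unfold Fin.tail
              linarith
            rw [this]
            exact Fin.cons_self_tail _
          rw [hA, hb]
          rw [Finset.sum_eq_single a]
          · simp
          · intro b _ hba
            simp [hba]
          · simp
    · rintro _ ⟨x, hx, rfl⟩ _ ⟨y, hy, rfl⟩ α β hα hβ hαβ
      refine ⟨α • x + β • y, convex_Kb _ hx hy hα hβ hαβ, ?_⟩
      rw [hA, hA, hA]
      rw [Finset.smul_sum, Finset.smul_sum, ← Finset.sum_add_distrib]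
      refine Finset.sum_congr rfl fun a _ => ?_
      rw [bc_comb x y α β hαβ a, add_smul, mul_smul, mul_smul]
  · rintro _ ⟨x, ⟨s, hs, hx⟩, rfl⟩
    have hcv : v k = ∑ a, bc c a • (v ∘ e) a := by rw [← hAc, hA]
    have hx' : A x = s • v k + ∑ a, (bc x a - s * bc c a) • (v ∘ e) a := by
      rw [hA, hcv, Finset.smul_sum, ← Finset.sum_add_distrib]
      refine Finset.sum_congr rfl fun a _ => ?_
      rw [sub_smul, mul_smul]
      abel
    let f : Option (Fin (n + 1)) → ℝ := fun o => o.elim s (fun a => bc x a - s * bc c a)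
    let g : Option (Fin (n + 1)) → (Fin n → ℝ) := fun o => o.elim (v k) (v ∘ e)
    have hfg : A x = ∑ o, f o • g o := by
      rw [Fintype.sum_option]
      exact hx'
    rw [hfg]
    refine (convex_convexHull ℝ (range v)).sum_mem ?_ ?_ ?_
    · rintro (_ | a) _
      · exact hs
      · exact sub_nonneg.2 (hx a)
    · rw [Fintype.sum_option]
      change s + ∑ a, (bc x a - s * bc c a) = 1
      rw [Finset.sum_sub_distrib, ← Finset.mul_sum, sum_bc, sum_bc]
      ring
    · rintro (_ | a) _
      · exact subset_convexHull ℝ _ ⟨k, rfl⟩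
      · exact subset_convexHull ℝ _ ⟨e a, rfl⟩

end Pool.Agent.H55.NV
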