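import Pool.Agent.H16.NV.Stm

/-!
# Crew NV, part IND: the induction on the number of positive barycentric coordinates
-/

set_option autoImplicit false

open MeasureTheory Set
open scoped ENNReal NNReal

namespace Pool.Agent.H55.NV

open Pool.Agent.H16.NV

/-- number of positive coordinates -/
noncomputable def Np {n : ℕ} (d : Fin (n + 1) → ℝ) : ℕ :=
  (Finset.univ.filter fun a => 0 < d a).card

theorem good_aff (hAFF : S_AFF) {n : ℕ} {p : ℝ} (hp : 0 < p) {K : Set (Fin n → ℝ)}
    (hK : MeasurableSet K) (h : Good p K) (A : (Fin n → ℝ) ≃ᵃ[ℝ] (Fin n → ℝ)) :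
    Good p (A '' K) := by
  intro ξ
  obtain ⟨ξ', h'⟩ := h (A.symm ξ)
  refine ⟨ξ', h'.trans ?_⟩
  have := hAFF n p hp K hK A (A.symm ξ)
  rw [AffineEquiv.apply_symm_apply] at this
  exact this.ge

theorem good_simp {n : ℕ} (p : ℝ) : Good p (Simp n) := fun ξ => ⟨ξ, le_rfl⟩

theorem meas_Kb (hCMP : S_CMP) {n : ℕ} {d : Fin (n + 1) → ℝ} (hd : ∑ a, d a = 1) :
    MeasurableSet (Kb d) :=
  ((hCMP n).2 d hd).1.measurableSet

theorem sum_comp {n : ℕ} (d : Fin (n + 1) → ℝ) (σ : Equiv.Perm (Fin (n + 1))) :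
    ∑ a, (d ∘ σ) a = ∑ a, d a := Equiv.sum_comp σ d

theorem Np_comp {n : ℕ} (d : Fin (n + 1) → ℝ) (σ : Equiv.Perm (Fin (n + 1))) :
    Np (d ∘ σ) = Np d := by
  unfold Np
  refine Finset.card_bij (fun a _ => σ a) ?_ ?_ ?_
  · intro a ha
    simpa using ha
  · intro a _ b _ h
    exact σ.injective h
  · intro b hb
    refine ⟨σ.symm b, ?_, by simp⟩
    simpa using hb

/-- it is enough to treat a permutation of `d` -/
theorem good_perm (hAFF : S_AFF) (hPER : S_PER) (hCMP : S_CMP) {n : ℕ} {p : ℝ} (hp : 0 < p)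
    {d : Fin (n + 1) → ℝ} (hd : ∑ a, d a = 1) (σ : Equiv.Perm (Fin (n + 1)))
    (h : Good p (Kb (d ∘ σ))) : Good p (Kb d) := by
  obtain ⟨A, hA⟩ := hPER n σ
  have h1 : Kb d = A.symm '' Kb (d ∘ σ) := by
    rw [← hA d, ← image_comp]
    have : (A.symm ∘ A : (Fin n → ℝ) → (Fin n → ℝ)) = id := by
      funext x; simp
    rw [this, image_id]
  rw [h1]
  exact good_aff hAFF hp (meas_Kb hCMP (by rw [sum_comp]; exact hd)) h A.symm

/-- a permutation with prescribed values at `0` and `1` -/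
theorem exists_perm {m : ℕ} (i j : Fin (m + 2)) (hij : i ≠ j) :
    ∃ σ : Equiv.Perm (Fin (m + 2)), σ 0 = i ∧ σ 1 = j := by
  -- first send `0` to `i`, then correct
  let τ : Equiv.Perm (Fin (m + 2)) := Equiv.swap 0 i
  have h0 : τ 0 = i := Equiv.swap_apply_left 0 i
  let ρ : Equiv.Perm (Fin (m + 2)) := Equiv.swap (τ 1) j
  refine ⟨τ.trans ρ, ?_, ?_⟩
  · rw [Equiv.trans_apply, h0]
    refine Equiv.swap_apply_of_ne_of_ne ?_ hij
    intro h
    have : τ 0 = τ 1 := h0.trans h
    exact absurd (τ.injective this) (by simp [Fin.ext_iff])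
  · rw [Equiv.trans_apply]
    exact Equiv.swap_apply_left _ _

theorem cm_zero {m : ℕ} (b : (Fin m → ℝ) → ℝ) (K : Set (Fin (m + 1) → ℝ)) : cm b 0 '' K = K := by
  have : cm b 0 = id := by
    funext x
    unfold cm
    simp only [zero_mul, add_zero, id_eq]
    exact Fin.cons_self_tail x
  rw [this, image_id]

/-- sum of a twice updated vector -/
theorem sum_update2 {m : ℕ} (d : Fin (m + 2) → ℝ) (s : ℝ) :
    ∑ a, Function.update (Function.update d 0 (d 0 - s)) 1 (d 1 + s) a = ∑ a, d a := by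
  rw [Fin.sum_univ_succ, Fin.sum_univ_succ, Fin.sum_univ_succ (f := d), Fin.sum_univ_succ]
  have h0 : Function.update (Function.update d 0 (d 0 - s)) 1 (d 1 + s) 0 = d 0 - s := by
    rw [Function.update_of_ne (by simp [Fin.ext_iff])]
    simp
  have h1 : Function.update (Function.update d 0 (d 0 - s)) 1 (d 1 + s) (Fin.succ 0) = d 1 + s := by
    rw [Fin.succ_zero_eq_one]
    simp
  have h2 : ∀ a : Fin m, Function.update (Function.update d 0 (d 0 - s)) 1 (d 1 + s)
      (Fin.succ (Fin.succ a)) = d a.succ.succ := by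
    intro a
    rw [Function.update_of_ne (by simp [Fin.ext_iff]), Function.update_of_ne (by simp [Fin.ext_iff])]
  rw [h0, h1, Finset.sum_congr rfl (fun a _ => h2 a)]
  rw [Fin.succ_zero_eq_one]
  ring

/-- one positive coordinate less at the ends of the movement -/
theorem Np_left {m : ℕ} (d : Fin (m + 2) → ℝ) (h0 : 0 < d 0) (h1 : 0 < d 1) :
    Np (Function.update (Function.update d 0 (d 0 - (- d 1))) 1 (d 1 + (- d 1))) < Np d := by
  unfold Np
  apply Finset.card_lt_card
  rw [Finset.ssubset_iff_of_subset]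
  · refine ⟨1, by simpa using h1, ?_⟩
    simp
  · intro a ha
    simp only [Finset.mem_filter, Finset.mem_univ, true_and] at ha ⊢
    by_cases ha1 : a = 1
    · rw [ha1]; exact h1
    · rw [Function.update_of_ne ha1] at ha
      by_cases ha0 : a = 0
      · rw [ha0]; exact h0
      · rwa [Function.update_of_ne ha0] at ha

theorem Np_right {m : ℕ} (d : Fin (m + 2) → ℝ) (h0 : 0 < d 0) (h1 : 0 < d 1) :
    Np (Function.update (Function.update d 0 (d 0 - d 0)) 1 (d 1 + d 0)) < Np d := by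
  unfold Np
  apply Finset.card_lt_card
  rw [Finset.ssubset_iff_of_subset]
  · refine ⟨0, by simpa using h0, ?_⟩
    simp only [Finset.mem_filter, Finset.mem_univ, true_and]
    rw [Function.update_of_ne (by simp [Fin.ext_iff])]
    simp
  · intro a ha
    simp only [Finset.mem_filter, Finset.mem_univ, true_and] at ha ⊢
    by_cases ha1 : a = 1
    · rw [ha1]; exact h1
    · rw [Function.update_of_ne ha1] at ha
      by_cases ha0 : a = 0
      · rw [ha0]; exact h0
      · rwa [Function.update_of_ne ha0] at ha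

/-- the step: two positive coordinates in positions `0, 1` -/
theorem step (hKEY : S_KEY) (hVOL : S_VOL) (hGEO : S_GEO) (hSPC : S_SPC) (hCMP : S_CMP)
    {m : ℕ} {p : ℝ} (hp : 0 < p) {d : Fin (m + 2) → ℝ} (hd : ∑ a, d a = 1) (h0 : 0 < d 0)
    (h1 : 0 < d 1)
    (ih : ∀ e : Fin (m + 2) → ℝ, ∑ a, e a = 1 → Np e < Np d → Good p (Kb e)) :
    Good p (Kb d) := by
  intro ξ
  have hc := (hCMP (m + 1)).2 d hd
  obtain ⟨ξ', h'⟩ := hKEY m p hp (Kb d) hc.1 hc.2 (spd d) (hSPC m d) (- d 1) 0 (d 0)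
    (by linarith) h0.le ξ
  rw [cm_zero] at h'
  have hvol : ∀ t : ℝ, volume (cm (spd d) t '' Kb d) = volume (Kb d) := fun t =>
    (hVOL m (spd d) (hSPC m d) t (Kb d)).1
  rcases h' with h' | h'
  · have hE := hGEO m d (- d 1) h0.le h1.le (by linarith) (by linarith)
    obtain ⟨ξ'', h''⟩ := ih _ ((sum_update2 d (- d 1)).trans hd) (Np_left d h0 h1) ξ'
    refine ⟨ξ'', h''.trans ?_⟩
    rw [hE]
    unfold Fu
    rw [hvol]
    exact mul_le_mul' le_rfl h'
  · have hE := hGEO m d (d 0) h0.le h1.le (by linarith) (by linarith)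
    obtain ⟨ξ'', h''⟩ := ih _ ((sum_update2 d (d 0)).trans hd) (Np_right d h0 h1) ξ'
    refine ⟨ξ'', h''.trans ?_⟩
    rw [hE]
    unfold Fu
    rw [hvol]
    exact mul_le_mul' le_rfl h'

theorem t_IND (hKEY : S_KEY) (hVOL : S_VOL) (hAFF : S_AFF) (hGEO : S_GEO) (hSPC : S_SPC)
    (hPER : S_PER) (hONE : S_ONE) (hCMP : S_CMP) : S_IND := by
  intro n p hp d hd
  -- strong induction on the number of positive coordinates
  induction hN : Np d using Nat.strong_induction_on generalizing d with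
  | _ N ih =>
  subst hN
  by_cases h2 : ∃ i j, i ≠ j ∧ 0 < d i ∧ 0 < d j
  · obtain ⟨i, j, hij, hi, hj⟩ := h2
    -- `n` is a successor
    obtain ⟨m, rfl⟩ : ∃ m, n = m + 1 := by
      rcases n with _ | m
      · exact absurd (Fin.ext (by omega)) hij
      · exact ⟨m, rfl⟩
    obtain ⟨σ, hσ0, hσ1⟩ := exists_perm i j hij
    refine good_perm hAFF hPER hCMP hp hd σ ?_
    refine step hKEY hVOL hGEO hSPC hCMP hp (by rw [sum_comp]; exact hd)
      (by simpa [hσ0] using hi) (by simpa [hσ1] using hj) ?_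
    intro e he hlt
    rw [Np_comp] at hlt
    exact ih (Np e) hlt e he rfl
  · push Not at h2
    -- there is a positive coordinate
    obtain ⟨i, hi⟩ : ∃ i, 0 < d i := by
      by_contra hcon
      push Not at hcon
      have : ∑ a, d a ≤ 0 := Finset.sum_nonpos fun a _ => hcon a
      linarith
    refine good_perm hAFF hPER hCMP hp hd (Equiv.swap 0 i) ?_
    obtain ⟨A, hA⟩ := hONE n (d ∘ Equiv.swap 0 i) (by rw [sum_comp]; exact hd) (by
      intro a ha
      have hne : Equiv.swap 0 i a ≠ i := by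
        intro h
        apply ha
        have : Equiv.swap 0 i a = Equiv.swap 0 i 0 := by rw [h, Equiv.swap_apply_left]
        exact (Equiv.swap 0 i).injective this
      exact h2 i _ hne.symm hi)
    rw [hA]
    refine good_aff hAFF hp ?_ (good_simp p) A
    exact (hCMP n).1.1.measurableSet

end Pool.Agent.H55.NV
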